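import Mathlib

set_option autoImplicit false

/-!
# Union-closed families of connected sets with at most two attachments; cactus graphs

Let `G` be a finite graph and let `F` be a union-closed family of sets of vertices generated by
connected sets `T ∈ 𝒢 ⊆ F` (every member is a union of members of `𝒢`).

1. Suppose that the vertex `ρ` lies in a member of `𝒢` and that, for every `S ∈ 𝒢` not containing `ρ` and
   every connected set `C ∋ ρ` of vertices disjoint from `S`, at most two vertices of `S` have a neighbour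
   in `C`. Then some vertex lies in at least half of the members of `F`.
2. If `G` is a cactus, that is a graph without diamond minor (for example a tree, a cycle or a
   unicyclic graph), then every such family with a nonempty member has a vertex in at least half of
   its members. No condition is imposed on the connected sets.

Proof. Choose `S ∈ 𝒢` with `ρ ∉ S` and `S` reachable from `ρ` such that the component `C` of `ρ` in
`G - S` is as large as possible. Every `T ∈ 𝒢` which meets `S` contains a vertex of `S` with a neighbour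
in `C`: this is clear if `T` meets `C`, and if `T` does not meet `C` and misses an attachment `v` of
`S`, then the component of `ρ` in `G - T` contains `C` and `v`. If `a` and `b` are the two attachments of
`S`, then `A ↦ A ∪ S` maps the members disjoint from `S` injectively to members containing `a` and `b`,
and all the other members contain `a` or `b`; so `d(a) + d(b) ≥ |F|`. In a graph without diamond minor
two disjoint connected sets `C`, `S` have at most two attachments, since `S` can be cut into three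
connected sets containing three given attachments.
-/

namespace Pool.Agent.Helper35UC.TwoAttachments

set_option linter.unusedSectionVars false

open Finset

section counting

variable {V : Type*} [DecidableEq V]

/-- If all members which meet the member `S` contain one of the elements `a`, `b` of `S`, then `a` and
`b` lie together in at least `|F|` members. -/
theorem count_two (F : Finset (Finset V)) (hU : ∀ A ∈ F, ∀ B ∈ F, A ∪ B ∈ F) (S : Finset V)
    (hS : S ∈ F) (a b : V) (ha : a ∈ S) (hb : b ∈ S)
    (h : ∀ A ∈ F, ¬ Disjoint A S → a ∈ A ∨ b ∈ A) :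
    F.card ≤ (F.filter (fun A => a ∈ A)).card + (F.filter (fun A => b ∈ A)).card := by
  classical
  have h0 : (F.filter (fun A => Disjoint A S)).card ≤
      ((F.filter (fun A => a ∈ A)) ∩ (F.filter (fun A => b ∈ A))).card := by
    refine card_le_card_of_injOn (fun A => A ∪ S) ?_ ?_
    · intro A hA
      rw [mem_coe, mem_filter] at hA
      rw [mem_coe, mem_inter, mem_filter, mem_filter]
      exact ⟨⟨hU A hA.1 S hS, mem_union_right _ ha⟩, ⟨hU A hA.1 S hS, mem_union_right _ hb⟩⟩
    · intro A hA B hB hAB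
      rw [mem_coe, mem_filter] at hA hB
      have e1 : (A ∪ S) \ S = A := by
        rw [union_sdiff_right, sdiff_eq_self_of_disjoint hA.2]
      have e2 : (B ∪ S) \ S = B := by
        rw [union_sdiff_right, sdiff_eq_self_of_disjoint hB.2]
      have hAB' : A ∪ S = B ∪ S := hAB
      rw [← e1, hAB', e2]
  have h1 : (F.filter (fun A => ¬ Disjoint A S)).card ≤
      ((F.filter (fun A => a ∈ A)) ∪ (F.filter (fun A => b ∈ A))).card := by
    refine card_le_card ?_
    intro A hA
    rw [mem_filter] at hA
    rw [mem_union, mem_filter, mem_filter]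
    rcases h A hA.1 hA.2 with h2 | h2
    · exact Or.inl ⟨hA.1, h2⟩
    · exact Or.inr ⟨hA.1, h2⟩
  have h2 := card_filter_add_card_filter_not (s := F) (fun A => Disjoint A S)
  have h3 := card_union_add_card_inter (F.filter (fun A => a ∈ A)) (F.filter (fun A => b ∈ A))
  omega

end counting

variable {V : Type*} [Fintype V] [DecidableEq V]

/-- `v` can be reached from `ρ` by a walk outside `S`. -/
def Reach (G : SimpleGraph V) (ρ : V) (S : Finset V) (v : V) : Prop :=
  ∃ p : G.Walk ρ v, ∀ u ∈ p.support, u ∉ S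

open Classical in
/-- the vertices that can be reached from `ρ` outside `S` -/
noncomputable def comp (G : SimpleGraph V) (ρ : V) (S : Finset V) : Finset V :=
  univ.filter (fun v => Reach G ρ S v)

omit [DecidableEq V] in
open Classical in
theorem mem_comp {G : SimpleGraph V} {ρ : V} {S : Finset V} {v : V} :
    v ∈ comp G ρ S ↔ Reach G ρ S v := by
  unfold comp
  rw [mem_filter]
  exact ⟨fun h => h.2, fun h => ⟨mem_univ _, h⟩⟩

theorem comp_disjoint (G : SimpleGraph V) (ρ : V) (S : Finset V) : Disjoint (comp G ρ S) S := by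
  rw [disjoint_left]
  intro v hv
  rw [mem_comp] at hv
  obtain ⟨p, hp⟩ := hv
  exact hp v p.end_mem_support

theorem root_mem {G : SimpleGraph V} {ρ : V} {S : Finset V} (h : ρ ∉ S) : ρ ∈ comp G ρ S := by
  rw [mem_comp]
  refine ⟨SimpleGraph.Walk.nil, ?_⟩
  intro u hu
  rw [SimpleGraph.Walk.support_nil, List.mem_singleton] at hu
  rw [hu]; exact h

/-- a neighbour of the component lies in the component or in `S` -/
theorem adj_comp {G : SimpleGraph V} {ρ : V} {S : Finset V} {c v : V} (hc : c ∈ comp G ρ S)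
    (h : G.Adj c v) : v ∈ comp G ρ S ∨ v ∈ S := by
  by_cases hv : v ∈ S
  · exact Or.inr hv
  · left
    rw [mem_comp] at hc ⊢
    obtain ⟨p, hp⟩ := hc
    refine ⟨p.concat h, ?_⟩
    intro u hu
    rw [SimpleGraph.Walk.support_concat, List.mem_append, List.mem_singleton] at hu
    rcases hu with hu | hu
    · exact hp u hu
    · rw [hu]; exact hv

theorem comp_connected {G : SimpleGraph V} {ρ : V} {S : Finset V} (h : ρ ∉ S) :
    (G.induce (comp G ρ S : Set V)).Connected := by
  rw [SimpleGraph.connected_iff_exists_forall_reachable]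
  refine ⟨⟨ρ, root_mem h⟩, ?_⟩
  rintro ⟨v, hv⟩
  have hv' := hv
  rw [mem_coe, mem_comp] at hv'
  obtain ⟨p, hp⟩ := hv'
  have hsup : ∀ x ∈ p.support, x ∈ (comp G ρ S : Set V) := by
    intro x hx
    rw [mem_coe, mem_comp]
    refine ⟨p.takeUntil x hx, ?_⟩
    intro u hu
    exact hp u (p.support_takeUntil_subset_support hx hu)
  exact ⟨p.induce _ hsup⟩

/-- a connected set which contains a vertex of `A` and one outside `A` contains an edge leaving `A` -/
theorem exists_edge {G : SimpleGraph V} {T : Finset V} (hT : (G.induce (T : Set V)).Connected)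
    (A : Set V) {x y : V} (hx : x ∈ T) (hxA : x ∈ A) (hy : y ∈ T) (hyA : y ∉ A) :
    ∃ c ∈ T, ∃ v ∈ T, G.Adj c v ∧ c ∈ A ∧ v ∉ A := by
  obtain ⟨w⟩ := hT.preconnected ⟨x, hx⟩ ⟨y, hy⟩
  obtain ⟨d, hd, h1, h2⟩ := w.exists_boundary_dart {z | (z : V) ∈ A} hxA hyA
  exact ⟨d.fst, d.fst.2, d.snd, d.snd.2, d.adj, h1, h2⟩

/-! ### Diamond minors -/

/-- `A` and `B` are joined by an edge. -/
def Linked (G : SimpleGraph V) (A B : Finset V) : Prop := ∃ a ∈ A, ∃ b ∈ B, G.Adj a b

/-- `G` has a diamond (`K₄` minus an edge) as a minor: there are four pairwise disjoint connected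
sets of vertices such that all pairs, with the exception of the pair `2, 3`, are joined by an edge.
The graphs without such a minor are the cactus graphs (graphs any two cycles of which have at most
one vertex in common). -/
def HasDiamondMinor (G : SimpleGraph V) : Prop :=
  ∃ A : Fin 4 → Finset V, (∀ i, (G.induce (A i : Set V)).Connected) ∧
    (∀ i j, i ≠ j → Disjoint (A i) (A j)) ∧
    Linked G (A 0) (A 1) ∧ Linked G (A 0) (A 2) ∧ Linked G (A 0) (A 3) ∧
    Linked G (A 1) (A 2) ∧ Linked G (A 1) (A 3)

omit [Fintype V] [DecidableEq V] in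
theorem Linked.symm {G : SimpleGraph V} {A B : Finset V} (h : Linked G A B) : Linked G B A := by
  obtain ⟨a, ha, b, hb, h⟩ := h
  exact ⟨b, hb, a, ha, h.symm⟩

/-- a connected set with three distinguished vertices can be cut into three connected sets, one of
which is joined to the two others -/
theorem split {G : SimpleGraph V} {S : Finset V} (hS : (G.induce (S : Set V)).Connected)
    (v : Fin 3 → V) (hv : Function.Injective v) (hvS : ∀ i, v i ∈ S) :
    ∃ B : Fin 3 → Finset V, (∀ i, v i ∈ B i ∧ B i ⊆ S ∧ (G.induce (B i : Set V)).Connected) ∧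
      (∀ i j, i ≠ j → Disjoint (B i) (B j)) ∧
      ∃ i j k, i ≠ j ∧ i ≠ k ∧ j ≠ k ∧ Linked G (B i) (B j) ∧ Linked G (B i) (B k) := by
  classical
  let P : Finset (Fin 3 → Finset V) := univ.filter (fun B =>
    (∀ i, v i ∈ B i ∧ B i ⊆ S ∧ (G.induce (B i : Set V)).Connected) ∧
      (∀ i j, i ≠ j → Disjoint (B i) (B j)))
  have hP : P.Nonempty := by
    refine ⟨fun i => {v i}, ?_⟩
    rw [mem_filter]
    refine ⟨mem_univ _, ?_, ?_⟩
    · intro i
      refine ⟨mem_singleton_self _, singleton_subset_iff.2 (hvS i), ?_⟩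
      rw [SimpleGraph.connected_iff_exists_forall_reachable]
      refine ⟨⟨v i, by simp⟩, ?_⟩
      rintro ⟨w, hw⟩
      have : w = v i := by simpa using hw
      subst this
      exact SimpleGraph.Reachable.refl _
    · intro i j hij
      rw [disjoint_singleton]
      exact fun h => hij (hv h)
  obtain ⟨B, hB, hmax⟩ := exists_max_image P (fun B => ∑ i, (B i).card) hP
  rw [mem_filter] at hB
  obtain ⟨-, hB1, hB2⟩ := hB
  -- the three sets cover `S`
  have hcov : ∀ x ∈ S, ∃ i, x ∈ B i := by
    by_contra hcon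
    push Not at hcon
    obtain ⟨x, hxS, hx⟩ := hcon
    obtain ⟨c, hc, w, hw, hcw, h3, h4⟩ := exists_edge hS {x | ∃ i, x ∈ B i} (hvS 0)
      ⟨0, (hB1 0).1⟩ hxS (fun h => by obtain ⟨i, hi⟩ := h; exact hx i hi)
    obtain ⟨i, hi⟩ := h3
    have h4' : ∀ j, w ∉ B j := fun j hj => h4 ⟨j, hj⟩
    have hnew : Function.update B i (insert w (B i)) ∈ P := by
      rw [mem_filter]
      refine ⟨mem_univ _, ?_, ?_⟩
      · intro j
        by_cases hj : j = i
        · subst hj
          rw [Function.update_self]
          refine ⟨mem_insert_of_mem (hB1 j).1, insert_subset hw (hB1 j).2.1, ?_⟩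
          have h5 : ((insert w (B j) : Finset V) : Set V) = (B j : Set V) ∪ {w} := by
            ext y; simp
          rw [h5]
          refine SimpleGraph.connected_induce_union (hB1 j).2.2.preconnected ?_ hi
            (Set.mem_singleton w) hcw
          rintro ⟨a, ha⟩ ⟨b, hb⟩
          have h6 : a = b := by
            rw [Set.mem_singleton_iff] at ha hb
            rw [ha, hb]
          subst h6
          exact SimpleGraph.Reachable.refl _
        · rw [Function.update_of_ne hj]
          exact hB1 j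
      · intro j k hjk
        by_cases hj : j = i
        · subst hj
          rw [Function.update_self, Function.update_of_ne hjk.symm, disjoint_insert_left]
          exact ⟨h4' k, hB2 j k hjk⟩
        · rw [Function.update_of_ne hj]
          by_cases hk : k = i
          · subst hk
            rw [Function.update_self, disjoint_insert_right]
            exact ⟨h4' j, hB2 j k hjk⟩
          · rw [Function.update_of_ne hk]
            exact hB2 j k hjk
    have h7 := hmax _ hnew
    have h8 : ∑ j, (B j).card < ∑ j, (Function.update B i (insert w (B i)) j).card := by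
      apply sum_lt_sum
      · intro j _
        by_cases hj : j = i
        · subst hj
          rw [Function.update_self]
          exact card_le_card (subset_insert _ _)
        · rw [Function.update_of_ne hj]
      · refine ⟨i, mem_univ _, ?_⟩
        rw [Function.update_self, card_insert_of_notMem (h4' i)]
        omega
    exact absurd h7 (not_le.2 h8)
  refine ⟨B, hB1, hB2, ?_⟩
  -- every set is joined to another one
  have hf : ∀ i, ∃ j, j ≠ i ∧ Linked G (B i) (B j) := by
    intro i
    obtain ⟨k, hk⟩ : ∃ k : Fin 3, k ≠ i := by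
      fin_cases i
      · exact ⟨1, by decide⟩
      · exact ⟨0, by decide⟩
      · exact ⟨0, by decide⟩
    obtain ⟨c, hc, w, hw, hcw, h3, h4⟩ := exists_edge hS (B i : Set V) (hvS i) (hB1 i).1
      (hvS k) (fun h => (disjoint_left.1 (hB2 k i hk) (hB1 k).1) h)
    obtain ⟨j, hj⟩ := hcov w hw
    refine ⟨j, ?_, c, h3, w, hj, hcw⟩
    rintro rfl
    exact h4 hj
  choose f hf1 hf2 using hf
  have hdec : ∀ f : Fin 3 → Fin 3, (∀ i, f i ≠ i) → ∃ i j k, i ≠ j ∧ i ≠ k ∧ j ≠ k ∧
      (f i = j ∨ f j = i) ∧ (f i = k ∨ f k = i) := by decide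
  obtain ⟨i, j, k, hij, hik, hjk, h1, h2⟩ := hdec f hf1
  refine ⟨i, j, k, hij, hik, hjk, ?_, ?_⟩
  · rcases h1 with h1 | h1
    · rw [← h1]; exact hf2 i
    · rw [← h1]; exact (hf2 j).symm
  · rcases h2 with h2 | h2
    · rw [← h2]; exact hf2 i
    · rw [← h2]; exact (hf2 k).symm

/-- in a graph without diamond minor two disjoint connected sets have at most two attachments -/
theorem cactus_att {G : SimpleGraph V} (hG : ¬ HasDiamondMinor G) {S C : Finset V}
    (hS : (G.induce (S : Set V)).Connected) (hC : (G.induce (C : Set V)).Connected)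
    (hCS : Disjoint C S) : {v : V | v ∈ S ∧ ∃ c ∈ C, G.Adj c v}.ncard ≤ 2 := by
  by_contra hcon
  rw [not_le, Set.two_lt_ncard (Set.toFinite _)] at hcon
  obtain ⟨a, ⟨haS, ca, hca, ha⟩, b, ⟨hbS, cb, hcb, hb⟩, c, ⟨hcS, cc, hcc, hc⟩, hab, hac, hbc⟩ := hcon
  have hv : Function.Injective ![a, b, c] := by
    intro i j hij
    fin_cases i <;> fin_cases j <;> simp_all
  obtain ⟨B, hB1, hB2, i, j, k, hij, hik, hjk, h1, h2⟩ := split hS ![a, b, c] hv (by
    intro i
    fin_cases i
    · exact haS
    · exact hbS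
    · exact hcS)
  have hlink : ∀ l, Linked G C (B l) := by
    intro l
    have hl := (hB1 l).1
    fin_cases l
    · exact ⟨ca, hca, a, hl, ha⟩
    · exact ⟨cb, hcb, b, hl, hb⟩
    · exact ⟨cc, hcc, c, hl, hc⟩
  have hdis : ∀ l, Disjoint C (B l) := fun l => disjoint_of_subset_right (hB1 l).2.1 hCS
  apply hG
  refine ⟨![C, B i, B j, B k], ?_, ?_, hlink i, hlink j, hlink k, h1, h2⟩
  · intro l
    fin_cases l
    · exact hC
    · exact (hB1 i).2.2
    · exact (hB1 j).2.2
    · exact (hB1 k).2.2
  · have hs : ∀ x y : Fin 4, x < y →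
        Disjoint ((![C, B i, B j, B k] : Fin 4 → Finset V) x)
          ((![C, B i, B j, B k] : Fin 4 → Finset V) y) := by
      intro x y hxy
      fin_cases x <;> fin_cases y <;> first
        | exact absurd hxy (by decide)
        | exact hdis _
        | exact hB2 _ _ hij
        | exact hB2 _ _ hik
        | exact hB2 _ _ hjk
    intro x y hxy
    rcases lt_or_gt_of_ne hxy with h | h
    · exact hs x y h
    · exact (hs y x h).symm

/-- **The first part of the theorem.** -/
theorem general (G : SimpleGraph V) (F 𝒢 : Finset (Finset V)) (ρ : V)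
    -- `F` is union-closed and generated by `𝒢`
    (hU : ∀ A ∈ F, ∀ B ∈ F, A ∪ B ∈ F) (hsub : 𝒢 ⊆ F)
    (hgen : ∀ A ∈ F, ∀ x ∈ A, ∃ T ∈ 𝒢, x ∈ T ∧ T ⊆ A)
    -- the members of `𝒢` are connected, one of them contains `ρ`
    (hconn : ∀ T ∈ 𝒢, (G.induce (T : Set V)).Connected) (hρ : ∃ T ∈ 𝒢, ρ ∈ T)
    -- at most two attachments
    (hatt : ∀ S ∈ 𝒢, ρ ∉ S → ∀ C : Finset V, ρ ∈ C → Disjoint C S →
      (G.induce (C : Set V)).Connected → {v : V | v ∈ S ∧ ∃ c ∈ C, G.Adj c v}.ncard ≤ 2) :
    ∃ x : V, F.card ≤ 2 * (F.filter (fun A => x ∈ A)).card := by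
  classical
  -- it is enough to find `S`, `a` and `b`
  suffices H : ∃ S ∈ 𝒢, ∃ a ∈ S, ∃ b ∈ S, ∀ T ∈ 𝒢, ¬ Disjoint T S → a ∈ T ∨ b ∈ T by
    obtain ⟨S, hS, a, ha, b, hb, h⟩ := H
    have h1 := count_two F hU S (hsub hS) a b ha hb (by
      intro A hA hAS
      rw [not_disjoint_iff] at hAS
      obtain ⟨x, hxA, hxS⟩ := hAS
      obtain ⟨T, hT, hxT, hTA⟩ := hgen A hA x hxA
      rcases h T hT (not_disjoint_iff.2 ⟨x, hxT, hxS⟩) with h2 | h2
      · exact Or.inl (hTA h2)
      · exact Or.inr (hTA h2))
    rcases le_total (F.filter (fun A => a ∈ A)).card (F.filter (fun A => b ∈ A)).card with h2 | h2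
    · exact ⟨b, by omega⟩
    · exact ⟨a, by omega⟩
  obtain ⟨T₀, hT₀, hρT₀⟩ := hρ
  -- the generators without `ρ` which can be reached from `ρ`
  let 𝒩 := 𝒢.filter (fun S => ρ ∉ S ∧ ∃ v ∈ S, G.Reachable ρ v)
  by_cases hne : 𝒩.Nonempty
  swap
  · refine ⟨T₀, hT₀, ρ, hρT₀, ρ, hρT₀, ?_⟩
    intro T hT hd
    left
    by_contra hc
    apply hne
    refine ⟨T, ?_⟩
    rw [mem_filter]
    rw [not_disjoint_iff] at hd
    obtain ⟨x, hx, hx0⟩ := hd
    refine ⟨hT, hc, x, hx, ?_⟩
    have h1 := (hconn T₀ hT₀).preconnected ⟨ρ, hρT₀⟩ ⟨x, hx0⟩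
    exact h1.map (SimpleGraph.Embedding.induce _).toHom
  obtain ⟨S, hS, hmax⟩ := exists_max_image 𝒩 (fun S => (comp G ρ S).card) hne
  rw [mem_filter] at hS
  obtain ⟨hSG, hρS, v₀, hv₀S, hv₀⟩ := hS
  set C := comp G ρ S with hC
  have hρC : ρ ∈ C := root_mem hρS
  have hCS : Disjoint C S := comp_disjoint G ρ S
  have hCc : (G.induce (C : Set V)).Connected := comp_connected hρS
  have h2 := hatt S hSG hρS C hρC hCS hCc
  -- every generator which meets `S` contains an attachment
  have hkey : ∀ T ∈ 𝒢, ¬ Disjoint T S → ∃ v ∈ T, v ∈ S ∧ ∃ c ∈ C, G.Adj c v := by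
    intro T hT hTS
    rw [not_disjoint_iff] at hTS
    obtain ⟨z, hzT, hzS⟩ := hTS
    have hzC : z ∉ C := fun h => (disjoint_left.1 hCS h) hzS
    by_cases hTC : Disjoint T C
    · -- then all attachments are in `T`, since otherwise the component gets larger
      by_contra hcon
      push Not at hcon
      -- an attachment of `S`
      have hex : ∃ v ∈ S, ∃ c ∈ C, G.Adj c v := by
        obtain ⟨w⟩ := hv₀
        obtain ⟨d, hd, h3, h4⟩ := w.exists_boundary_dart (C : Set V) hρC
          (fun h => (disjoint_left.1 hCS h) hv₀S)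
        rcases adj_comp (hC ▸ h3 : d.fst ∈ comp G ρ S) d.adj with h5 | h5
        · exact absurd h5 h4
        · exact ⟨d.snd, h5, d.fst, h3, d.adj⟩
      obtain ⟨v, hvS, c, hcC, hcv⟩ := hex
      have hvT : v ∉ T := fun h => hcon v h hvS c hcC hcv
      have hρT : ρ ∉ T := fun h => (disjoint_left.1 hTC h) hρC
      have hsubC : C ⊆ comp G ρ T := by
        intro u hu
        rw [hC, mem_comp] at hu
        rw [mem_comp]
        obtain ⟨p, hp⟩ := hu
        refine ⟨p, ?_⟩
        intro y hy hyT
        apply disjoint_left.1 hTC hyT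
        rw [hC, mem_comp]
        refine ⟨p.takeUntil y hy, ?_⟩
        intro u hu
        exact hp u (p.support_takeUntil_subset_support hy hu)
      have hvC : v ∈ comp G ρ T := by
        rcases adj_comp (hsubC hcC) hcv with h5 | h5
        · exact h5
        · exact absurd h5 hvT
      have hlt : C.card < (comp G ρ T).card := by
        apply card_lt_card
        refine ⟨hsubC, fun h => ?_⟩
        exact (disjoint_left.1 hCS (h hvC)) hvS
      have hTN : T ∈ 𝒩 := by
        rw [mem_filter]
        refine ⟨hT, hρT, z, hzT, ?_⟩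
        have h1 := (hconn S hSG).preconnected ⟨v₀, hv₀S⟩ ⟨z, hzS⟩
        exact hv₀.trans (h1.map (SimpleGraph.Embedding.induce _).toHom)
      have := hmax T hTN
      omega
    · rw [not_disjoint_iff] at hTC
      obtain ⟨y, hyT, hyC⟩ := hTC
      obtain ⟨c, hc, v, hv, hcv, h3, h4⟩ := exists_edge (hconn T hT) (C : Set V) hyT hyC hzT hzC
      rcases adj_comp (hC ▸ h3 : c ∈ comp G ρ S) hcv with h5 | h5
      · exact absurd h5 h4
      · exact ⟨v, hv, h5, c, h3, hcv⟩
  -- two attachments
  obtain ⟨v, hvS, hvS', hvc⟩ := hkey S hSG (by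
    rw [disjoint_self_iff_empty]
    exact ne_empty_of_mem hv₀S)
  set X : Set V := {v : V | v ∈ S ∧ ∃ c ∈ C, G.Adj c v} with hX
  have hfin : X.Finite := Set.toFinite _
  have hvX : v ∈ X := ⟨hvS, hvc⟩
  obtain ⟨b, hb⟩ : ∃ b, X ⊆ {v, b} := by
    by_cases h3 : ∃ b ∈ X, b ≠ v
    · obtain ⟨b, hbX, hbv⟩ := h3
      refine ⟨b, ?_⟩
      have h4 : ({v, b} : Set V) ⊆ X := by
        intro x hx
        rcases hx with rfl | rfl
        · exact hvX
        · exact hbX
      have h5 : ({v, b} : Set V).ncard = 2 := Set.ncard_pair (fun h => hbv h.symm)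
      have h6 := Set.eq_of_subset_of_ncard_le h4 (by rw [h5]; exact h2) hfin
      rw [h6]
    · push Not at h3
      exact ⟨v, fun x hx => Or.inl (h3 x hx)⟩
  by_cases hbX : b ∈ S
  · refine ⟨S, hSG, v, hvS, b, hbX, ?_⟩
    intro T hT hTS
    obtain ⟨x, hxT, hxS, hxc⟩ := hkey T hT hTS
    rcases hb ⟨hxS, hxc⟩ with rfl | h7
    · exact Or.inl hxT
    · rw [Set.mem_singleton_iff] at h7
      rw [← h7]; exact Or.inr hxT
  · refine ⟨S, hSG, v, hvS, v, hvS, ?_⟩
    intro T hT hTS
    obtain ⟨x, hxT, hxS, hxc⟩ := hkey T hT hTS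
    rcases hb ⟨hxS, hxc⟩ with rfl | h7
    · exact Or.inl hxT
    · rw [Set.mem_singleton_iff] at h7
      rw [h7] at hxS
      exact absurd hxS hbX

/-- **The theorem.** Let `F` be a nonempty union-closed family of sets of vertices of the finite graph `G`,
generated by the family `𝒢 ⊆ F` of connected sets.

1. Let `ρ` be a vertex in some member of `𝒢` such that for all `S ∈ 𝒢` with `ρ ∉ S` and all connected
sets `C ∋ ρ` disjoint from `S` at most two vertices of `S` have a neighbour in `C`. Then some vertex lies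
in at least half of the members of `F`.

2. If `G` has no diamond minor (if it is a cactus), `F ≠ {∅}`, then some vertex lies in at least half of
the members of `F`. -/
theorem result (G : SimpleGraph V) (F 𝒢 : Finset (Finset V))
    -- `F` is union-closed and generated by `𝒢`
    (hU : ∀ A ∈ F, ∀ B ∈ F, A ∪ B ∈ F) (hsub : 𝒢 ⊆ F)
    (hgen : ∀ A ∈ F, ∀ x ∈ A, ∃ T ∈ 𝒢, x ∈ T ∧ T ⊆ A)
    -- the members of `𝒢` are connected
    (hconn : ∀ T ∈ 𝒢, (G.induce (T : Set V)).Connected) :
    (∀ ρ : V, (∃ T ∈ 𝒢, ρ ∈ T) →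
      (∀ S ∈ 𝒢, ρ ∉ S → ∀ C : Finset V, ρ ∈ C → Disjoint C S →
        (G.induce (C : Set V)).Connected → {v : V | v ∈ S ∧ ∃ c ∈ C, G.Adj c v}.ncard ≤ 2) →
      ∃ x : V, F.card ≤ 2 * (F.filter (fun A => x ∈ A)).card) ∧
    ((¬ HasDiamondMinor G) → (∃ A ∈ F, A.Nonempty) →
      ∃ x : V, F.card ≤ 2 * (F.filter (fun A => x ∈ A)).card) := by
  refine ⟨fun ρ hρ hatt => general G F 𝒢 ρ hU hsub hgen hconn hρ hatt, ?_⟩
  rintro hG ⟨A, hA, ρ, hρA⟩
  obtain ⟨T, hT, hρT, -⟩ := hgen A hA ρ hρA
  exact general G F 𝒢 ρ hU hsub hgen hconn ⟨T, hT, hρT⟩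
    (fun S hS _ C _ hCS hCc => cactus_att hG (hconn S hS) hCc hCS)

end Pool.Agent.Helper35UC.TwoAttachments
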